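import Pool.Agent.Y521.SD.Stm

/-!
Smoothing of directionally monotone homeomorphisms onto closed affine manifolds: the finite
induction and the surjectivity (project SD).
-/

set_option autoImplicit false
set_option linter.all false

open Set Filter Topology Metric Function
open scoped Manifold ContDiff

noncomputable section

namespace Pool.Agent.Y261.SD

open Pool.Agent.Y522 Pool.Agent.Y521.SD

section pre

variable {n : ℕ} {T : Type} [TopologicalSpace T] {Ω : Set (E n)} {π : E n → T}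

/-- good balls -/
theorem good (hA : Aff n Ω π) (t : T) : ∃ (v : E n) (r : ℝ), 0 < r ∧ ball v r ⊆ Ω ∧
    InjOn π (ball v r) ∧ π '' closedBall v (r / 2) ∈ 𝓝 t := by
  obtain ⟨v, hv, hvt⟩ := hA.surj t
  obtain ⟨U, hU, hinj⟩ := hA.inj v hv
  have h1 : U ∩ Ω ∈ 𝓝 v := inter_mem hU (hA.opn.mem_nhds hv)
  obtain ⟨r, hr, hb⟩ := Metric.mem_nhds_iff.1 h1
  refine ⟨v, r, hr, fun x hx => (hb hx).2, hinj.mono fun x hx => (hb hx).1, ?_⟩
  rw [← hvt]
  exact hA.nhd v hv _ (closedBall_mem_nhds v (by positivity))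

theorem img_compact (hA : Aff n Ω π) {v : E n} {r : ℝ} (hr : 0 < r) (hb : ball v r ⊆ Ω) :
    IsCompact (π '' closedBall v (r / 2)) :=
  (isCompact_closedBall v (r / 2)).image_of_continuousOn
    (hA.cont.mono ((closedBall_subset_ball (by linarith)).trans hb))

theorem img_nhds {X : Type} [TopologicalSpace X] [ChartedSpace (E n) X] (hA : Aff n Ω π)
    {g : X → T} {x : X} (h : LDp n Ω π g x) : range g ∈ 𝓝 (g x) := by
  obtain ⟨G, ⟨hG, hl⟩, hLD⟩ := h
  have h1 : G '' {y | π (G y) = g y} ∈ 𝓝 (G x) := hLD.image_mem_nhds (hl.mono fun y hy => hy.2)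
  have h2 := hA.nhd (G x) hG _ h1
  rw [hl.self_of_nhds.2] at h2
  refine mem_of_superset h2 ?_
  rintro _ ⟨_, ⟨y, hy, rfl⟩, rfl⟩
  exact ⟨y, hy.symm⟩

end pre

theorem all (hS : StStage) : StAll := by
  intro n T _ _ _ Ω π X _ _ _ _ _ h hA hD
  have hT : CompactSpace T := h.compactSpace
  choose v r hr hb hinj hn using good hA
  obtain ⟨s, -, hs⟩ := isCompact_univ.elim_nhds_subcover
    (fun t => π '' closedBall (v t) (r t / 2)) (fun t _ => hn t)
  set m := s.card with hm
  set e : Fin m ≃ s := s.equivFin.symm with he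
  set v' : Fin m → E n := fun l => v (e l) with hv'
  set r' : Fin m → ℝ := fun l => r (e l) with hr'
  set D : Fin m → Set X := fun l => h ⁻¹' (π '' closedBall (v' l) (r' l / 2)) with hDd
  have hDc : ∀ l, IsCompact (D l) := by
    intro l
    have h1 : IsClosed (π '' closedBall (v' l) (r' l / 2)) := (img_compact hA (hr _) (hb _)).isClosed
    exact (h1.preimage h.continuous).isCompact
  have hDU : ∀ x, ∃ l, x ∈ D l := by
    intro x
    have h1 := hs (mem_univ (h x))
    simp only [mem_iUnion] at h1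
    obtain ⟨t, ht, hx⟩ := h1
    refine ⟨s.equivFin ⟨t, ht⟩, ?_⟩
    have h2 : e (s.equivFin ⟨t, ht⟩) = ⟨t, ht⟩ := s.equivFin.symm_apply_apply _
    rw [hDd, mem_preimage, hv', hr']
    simp only [h2]
    exact hx
  have key : ∀ i ≤ m, ∃ g : X → T, Continuous g ∧ Injective g ∧
      (∀ x, LDp n Ω π g x ∨ DMp n Ω π g x) ∧ (∀ l, g '' D l ⊆ π '' ball (v' l) (r' l)) ∧
      ∀ l : Fin m, (l : ℕ) < i → ∀ x ∈ D l, LDp n Ω π g x := by
    intro i
    induction i with
    | zero =>
      intro _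
      refine ⟨h, h.continuous, h.injective, fun x => Or.inr (hD x), fun l => ?_,
        fun l hl => absurd hl (Nat.not_lt_zero _)⟩
      rintro _ ⟨x, hx, rfl⟩
      exact image_mono (closedBall_subset_ball (by
        have := hr (e l)
        show r (e l) / 2 < r (e l)
        linarith)) hx
    | succ i ih =>
      intro hi
      obtain ⟨g, g1, g2, g3, g4, g5⟩ := ih (by omega)
      obtain ⟨g', k1, k2, k3, k4, k5, k6⟩ := hS n T Ω π X g m D v' r' ⟨i, by omega⟩ hA g1 g2 g3
        hDc (fun l => hr _) (fun l => hb _) (fun l => hinj _) g4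
      refine ⟨g', k1, k2, k3, k4, fun l hl x hx => ?_⟩
      rcases Nat.lt_succ_iff_lt_or_eq.1 hl with h1 | h1
      · exact k5 x (g5 l h1 x hx)
      · have h2 : l = ⟨i, by omega⟩ := Fin.ext h1
        rw [h2] at hx
        exact k6 x hx
  obtain ⟨g, g1, g2, g3, g4, g5⟩ := key m le_rfl
  have hall : ∀ x, LDp n Ω π g x := by
    intro x
    obtain ⟨l, hl⟩ := hDU x
    exact g5 l l.2 x hl
  have hclosed : IsClosed (range g) := (isCompact_range g1).isClosed
  have hopen : IsOpen (range g) := by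
    rw [isOpen_iff_mem_nhds]
    rintro _ ⟨x, rfl⟩
    exact img_nhds hA (hall x)
  have hne : (range g).Nonempty := by
    obtain ⟨t⟩ := (inferInstance : Nonempty T)
    exact ⟨_, ⟨h.symm t, rfl⟩⟩
  have hsurj : Surjective g := by
    rw [← range_eq_univ]
    exact IsClopen.eq_univ ⟨hclosed, hopen⟩ hne
  have hcont : Continuous (Equiv.ofBijective g ⟨g2, hsurj⟩) := g1
  exact ⟨Continuous.homeoOfEquivCompactToT2 hcont, hall⟩

end Pool.Agent.Y261.SD
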